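import Pool.Agent.E8helper48.RR.Stm4

/-! Third-order rational recurrences: pieces N2LO and N2LO0. -/

set_option autoImplicit false

namespace Pool.Agent.E8helper79.RR

theorem fin_step {al D S I v w q : ℝ} (hw : 0 < w) (h1 : (1 - I) * w ≤ I * q)
    (h2 : q * ((1 + al) * v + al * (1 + D * S)) ≤ (D * S - al) * (v + D * S) * w)
    (hI : 0 < I) (hM : 0 < (1 + al) * v + al * (1 + D * S)) :
    al * (v + D * S) + al + v ≤ I * (D * S * (v + D * S) + al + v) := by
  have h3 : (1 - I) * w * ((1 + al) * v + al * (1 + D * S)) ≤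
      I * ((D * S - al) * (v + D * S) * w) := by
    calc (1 - I) * w * ((1 + al) * v + al * (1 + D * S)) ≤
        I * q * ((1 + al) * v + al * (1 + D * S)) := mul_le_mul_of_nonneg_right h1 hM.le
      _ = I * (q * ((1 + al) * v + al * (1 + D * S))) := by ring
      _ ≤ _ := mul_le_mul_of_nonneg_left h2 hI.le
  have h4 : ((1 - I) * ((1 + al) * v + al * (1 + D * S))) * w ≤
      (I * ((D * S - al) * (v + D * S))) * w := by linarith
  have h5 := le_of_mul_le_mul_right h4 hw
  linarith

theorem t_N2LO : RR48.S_N2LO := by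
  intro al D z I S v y0 y1 y2 y3 y4 hal hD hz hz1 he hzS haz hI hv hy0 hy0S hzy1 hy1S hy2S hay2
    hy2 hy3 hy4 hy4z e3 e4 e5
  have hzD : 0 < z * D := mul_pos hz hD
  have h1 : 1 - z ≤ z * D := by
    by_contra hc
    push Not at hc
    nlinarith [mul_pos hz (sub_pos.2 hc)]
  have hS : 0 < S := hz.trans_le hzS
  have hDS : 0 < D * S := mul_pos hD hS
  have hvz : z ≤ v := by
    by_contra hc
    push Not at hc
    nlinarith [mul_pos hzD (sub_pos.2 hc), mul_nonneg (sub_nonneg.2 hz1.le) (sub_nonneg.2 hzS)]
  have hv0 : 0 < v := hz.trans_le hvz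
  have hy1 : 0 < y1 := hz.trans_le hzy1
  have haS : al ≤ D * S := haz.trans (mul_le_mul_of_nonneg_left hzS hD.le)
  have hM : 0 < (1 + al) * v + al * (1 + D * S) := by positivity
  have hMY : 0 < (1 + al) * y1 + al * (1 + D * S) := by positivity
  have hW : 0 < y1 + D * S := by positivity
  have hI1 : I ≤ 1 := by
    by_contra hc
    push Not at hc
    nlinarith [mul_pos (sub_pos.2 hc) (add_pos hal hy3), mul_nonneg hI.le (sub_nonneg.2 hay2)]
  have hq : (1 - I) * (al + y3) = I * (D * y2 - al) := by linarith
  have hy3W : al + y1 ≤ y3 * (y1 + D * S) := by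
    have := mul_le_mul_of_nonneg_left hy0S hD.le
    have := mul_le_mul_of_nonneg_left this hy3.le
    nlinarith
  have hA : (1 - I) * ((1 + al) * y1 + al * (1 + D * S)) ≤ I * ((D * y2 - al) * (y1 + D * S)) := by
    calc (1 - I) * ((1 + al) * y1 + al * (1 + D * S)) ≤
        (1 - I) * ((al + y3) * (y1 + D * S)) :=
          mul_le_mul_of_nonneg_left (by linarith) (by linarith)
      _ = (1 - I) * (al + y3) * (y1 + D * S) := by ring
      _ = _ := by rw [hq]; ring
  refine fin_step (w := (1 + al) * y1 + al * (1 + D * S)) (q := (D * y2 - al) * (y1 + D * S))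
    hMY hA ?_ hI hM
  have hid : (v + D * S) * ((1 + al) * y1 + al * (1 + D * S)) -
      (y1 + D * S) * ((1 + al) * v + al * (1 + D * S)) = (y1 - v) * (D * S - al) := by ring
  rcases le_or_gt v y1 with hc | hc
  · have h2 : (y1 + D * S) * ((1 + al) * v + al * (1 + D * S)) ≤
        (v + D * S) * ((1 + al) * y1 + al * (1 + D * S)) := by
      have := mul_nonneg (sub_nonneg.2 hc) (sub_nonneg.2 haS)
      linarith
    have h3 : D * y2 - al ≤ D * S - al := by
      have := mul_le_mul_of_nonneg_left hy2S hD.le
      linarith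
    calc (D * y2 - al) * (y1 + D * S) * ((1 + al) * v + al * (1 + D * S)) =
        (D * y2 - al) * ((y1 + D * S) * ((1 + al) * v + al * (1 + D * S))) := by ring
      _ ≤ (D * S - al) * ((v + D * S) * ((1 + al) * y1 + al * (1 + D * S))) :=
          mul_le_mul h3 h2 (mul_pos hW hM).le (by linarith)
      _ = _ := by ring
  · -- the case `y1 < v`
    have h2 : al + y2 ≤ z * (y2 + D * y1) := by
      rw [← e4]
      exact mul_le_mul_of_nonneg_right hy4z (by positivity)
    have h3 : (1 - z) * y2 ≤ (1 - z) * S - z * D * (v - y1) := by linarith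
    have h4 : (1 - z) * (D * y2 - al) ≤ (1 - z) * (D * S - al) - z * D * D * (v - y1) := by
      have := mul_le_mul_of_nonneg_left h3 hD.le
      linarith
    have h5 : (1 - z) * (D * S - al) ≤ z * D * D * ((1 + al) * v + al * (1 + D * S)) := by
      have h6 : (1 - z) * S ≤ z * D * v := by
        have := mul_nonneg hz.le (sub_nonneg.2 h1)
        linarith
      have h7 : (1 - z) * (D * S) ≤ z * D * D * v := by
        have := mul_le_mul_of_nonneg_left h6 hD.le
        linarith
      have h8 : 0 ≤ (1 - z) * al := mul_nonneg (by linarith) hal.le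
      have h9 : 0 ≤ z * D * D * (al * v + al * (1 + D * S)) := by positivity
      linarith
    have h6 : (1 - z) * (D * S - al) * (D * S - al) ≤
        z * D * D * ((1 + al) * v + al * (1 + D * S)) * (y1 + D * S) :=
      mul_le_mul h5 (by linarith) (by linarith) (by positivity)
    have h7 : (v - y1) * ((1 - z) * (D * S - al) * (D * S - al)) ≤
        (v - y1) * (z * D * D * ((1 + al) * v + al * (1 + D * S)) * (y1 + D * S)) :=
      mul_le_mul_of_nonneg_left h6 (by linarith)
    have h8 : (1 - z) * (D * y2 - al) * ((y1 + D * S) * ((1 + al) * v + al * (1 + D * S))) ≤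
        ((1 - z) * (D * S - al) - z * D * D * (v - y1)) *
          ((y1 + D * S) * ((1 + al) * v + al * (1 + D * S))) :=
      mul_le_mul_of_nonneg_right h4 (mul_pos hW hM).le
    have h9 : (1 - z) * ((D * y2 - al) * (y1 + D * S) * ((1 + al) * v + al * (1 + D * S))) ≤
        (1 - z) * ((D * S - al) * (v + D * S) * ((1 + al) * y1 + al * (1 + D * S))) := by
      have e : (1 - z) * ((D * S - al) * (v + D * S) * ((1 + al) * y1 + al * (1 + D * S))) =
          (1 - z) * (D * S - al) * ((y1 + D * S) * ((1 + al) * v + al * (1 + D * S))) +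
            (1 - z) * (D * S - al) * ((y1 - v) * (D * S - al)) := by
        rw [← hid]
        ring
      rw [e]
      linarith
    exact le_of_mul_le_mul_left h9 (by linarith)

theorem t_N2LO0 : RR48.S_N2LO0 := by
  intro al D z I S v y2 y3 hal hD hz hz1 he hzS haz hI hv hy2S hay2 hy2 hzy3 e5
  have hzD : 0 < z * D := mul_pos hz hD
  have h1 : 1 - z ≤ z * D := by
    by_contra hc
    push Not at hc
    nlinarith [mul_pos hz (sub_pos.2 hc)]
  have hS : 0 < S := hz.trans_le hzS
  have hDS : 0 < D * S := mul_pos hD hS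
  have hvz : z ≤ v := by
    by_contra hc
    push Not at hc
    nlinarith [mul_pos hzD (sub_pos.2 hc), mul_nonneg (sub_nonneg.2 hz1.le) (sub_nonneg.2 hzS)]
  have hv0 : 0 < v := hz.trans_le hvz
  have hy3 : 0 < y3 := hz.trans_le hzy3
  have haS : al ≤ D * S := haz.trans (mul_le_mul_of_nonneg_left hzS hD.le)
  have hM : 0 < (1 + al) * v + al * (1 + D * S) := by positivity
  have hI1 : I ≤ 1 := by
    by_contra hc
    push Not at hc
    nlinarith [mul_pos (sub_pos.2 hc) (add_pos hal hy3), mul_nonneg hI.le (sub_nonneg.2 hay2)]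
  have hq : (1 - I) * (al + y3) = I * (D * y2 - al) := by linarith
  have hA : (1 - I) * (al + z) ≤ I * (D * S - al) := by
    have h2 : (1 - I) * (al + z) ≤ (1 - I) * (al + y3) :=
      mul_le_mul_of_nonneg_left (by linarith) (by linarith)
    have h3 : I * (D * y2 - al) ≤ I * (D * S - al) := by
      refine mul_le_mul_of_nonneg_left ?_ hI.le
      have := mul_le_mul_of_nonneg_left hy2S hD.le
      linarith
    linarith
  refine fin_step (w := al + z) (q := D * S - al) (by linarith) hA ?_ hI hM
  have hf : al + v ≤ z * (v + D * S) := by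
    have h2 : (1 - z) * (1 - z) * (S - z) ≤ (z * D) * (z * D) * (S - z) :=
      mul_le_mul_of_nonneg_right (mul_le_mul h1 h1 (by linarith) hzD.le) (by linarith)
    have h3 : z * D * (al + (1 - z) * v) ≤ z * D * (z * D * S) := by
      have e1 : al = z * ((D + 1) * z) - z := by linarith
      have e2 : z * D * (al + (1 - z) * v) = z * D * al + (1 - z) * (z * D * v) := by ring
      rw [e2, hv, e1]
      linarith
    have h4 := le_of_mul_le_mul_left h3 hzD
    linarith
  have h5 : (1 + al) * v + al * (1 + D * S) ≤ (v + D * S) * (al + z) := by linarith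
  calc (D * S - al) * ((1 + al) * v + al * (1 + D * S)) ≤
      (D * S - al) * ((v + D * S) * (al + z)) := mul_le_mul_of_nonneg_left h5 (by linarith)
    _ = _ := by ring

end Pool.Agent.E8helper79.RR
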